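import Mathlib
import Pool.Agent.N772.SC.Main
import Pool.Agent.N772.BL.Comp

/-!
# Bounded companions for integer polynomials `X ^ N A + B` with a long shift
-/

set_option autoImplicit false

open Polynomial MeasureTheory
open Pool.Agent.H261R2.CM
open Pool.Agent.Y820.LB
open Pool.Agent.W242.IM (ae_eval_ne allM closure_of_LL m1_mem_LL)
open Pool.Agent.TH845.KN (BC BC_monoid)

namespace Pool.Agent.N317.LS

lemma norm_ez (t : ℝ) : ‖ez t‖ = 1 := D_norm_ez t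

lemma ev1_aeval (A : ℤ[X]) (t : ℝ) : ev1 A t = aeval (ez t) A := by
  rw [ev1, toC, eval_map]
  rfl

/-- the quotient `(X ^ N A + B) / A` is dominated -/
lemma dom {A B : ℤ[X]} (N : ℕ) {H : ℝ} (hH : 1 ≤ H) (hA : A ≠ 0)
    (hB : ∀ z : ℂ, ‖z‖ = 1 → ‖aeval z B‖ ≤ H * ‖aeval z A‖) :
    Dom (fun t => ‖ev1 (X ^ N * A + B) t / ev1 A t‖) (Real.log (2 + H)) := by
  refine ⟨fun _ => Real.log (2 + H), intervalIntegrable_const, ?_, by simp⟩
  filter_upwards [D_ae_ne A hA] with t ht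
  refine ⟨norm_nonneg _, Real.log_le_log (by positivity) ?_⟩
  have h1 : ev1 (X ^ N * A + B) t = ez t ^ N * ev1 A t + ev1 B t := by
    rw [ev1_aeval, ev1_aeval, ev1_aeval, map_add, map_mul, map_pow, aeval_X]
  have h2 : 0 < ‖ev1 A t‖ := norm_pos_iff.2 ht
  have h3 : ‖ev1 B t‖ ≤ H * ‖ev1 A t‖ := by
    rw [ev1_aeval, ev1_aeval]
    exact hB _ (norm_ez t)
  have h4 : ‖ev1 (X ^ N * A + B) t / ev1 A t‖ ≤ 1 + H := by
    rw [norm_div, div_le_iff₀ h2, h1]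
    refine (norm_add_le _ _).trans ?_
    rw [norm_mul, norm_pow, norm_ez, one_pow, one_mul, add_mul, one_mul]
    linarith
  linarith

/-- the companion -/
theorem companion {A B : ℤ[X]} {N g : ℕ} {H : ℝ} (hA : A ≠ 0) (hg1 : 1 ≤ g) (hH : 1 ≤ H)
    (hdeg : B.natDegree + g ≤ N + A.natDegree)
    (hB : ∀ z : ℂ, ‖z‖ = 1 → ‖aeval z B‖ ≤ H * ‖aeval z A‖)
    (hg : 250 * (Pool.Agent.N772.SC.outer A : ℝ) * (Pool.Agent.N772.SC.outer A + Real.log H) ≤ g)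
    (hz : ∀ z : ℂ, 1 < ‖z‖ → aeval z A ≠ 0 ∨ aeval z B ≠ 0) :
    ∃ d P Q : ℤ[X], X ^ N * A + B = d * P ∧ d ≠ 0 ∧ P ≠ 0 ∧ Q ≠ 0 ∧ IsRelPrime P Q ∧
      (∀ z : ℂ, 1 < ‖z‖ → (toC d).eval z ≠ 0) ∧
      mx1 P Q ≤ Real.log (m1 P) + (Real.log (2 + H) + Real.log (100 / 93)) := by
  have hmain := Pool.Agent.N772.SC.main_int A B N g H hH hg1 hA hdeg hB hg
  have hF : X ^ N * A + B ≠ 0 := by
    intro h0
    rw [h0] at hmain
    have h1 : 1 ≤ m1 A := one_le_m1 hA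
    have h2 : ((0 : ℤ[X]).map (Int.castRingHom ℂ)).mahlerMeasure = 0 := by simp
    rw [h2] at hmain
    have h3 : m1 A = (A.map (Int.castRingHom ℂ)).mahlerMeasure := rfl
    rw [← h3] at hmain
    linarith
  have hdom := dom N hH hA hB
  obtain ⟨Q, P, d, h1, h2, h3, h4, h5, h6, h7, h8⟩ := reduce A (X ^ N * A + B) hA hF _ _ hdom (by
    filter_upwards [D_ae_ne _ hA] with t ht
    rw [mul_div_cancel₀ _ ht])
  refine ⟨d, P, Q, h2, h3, h5, h4, h6.symm, ?_, ?_⟩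
  · intro z hz1 hz0
    have hA0 : aeval z A = 0 := by
      rw [h1, map_mul]
      have : aeval z d = (toC d).eval z := by rw [toC, eval_map]; rfl
      rw [this, hz0, zero_mul]
    have hF0 : aeval z (X ^ N * A + B) = 0 := by
      rw [h2, map_mul]
      have : aeval z d = (toC d).eval z := by rw [toC, eval_map]; rfl
      rw [this, hz0, zero_mul]
    rw [map_add, map_mul, hA0, mul_zero, zero_add] at hF0
    rcases hz z hz1 with h | h
    · exact h hA0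
    · exact h hF0
  · have e1 : mx1 P Q = mx1 Q P := by
      unfold mx1
      congr 1
      ext t
      rw [max_comm]
    rw [e1]
    have hd1 : 1 ≤ m1 d := one_le_m1 h3
    have hP1 : 1 ≤ m1 P := one_le_m1 h5
    have hQ1 : 1 ≤ m1 Q := one_le_m1 h4
    have hmF : m1 (X ^ N * A + B) = m1 d * m1 P := by rw [h2, m1_mul]
    have h9 : 93 / 100 * m1 A ≤ m1 (X ^ N * A + B) := hmain
    rw [h7, hmF] at h9
    have h10 : m1 Q ≤ 100 / 93 * m1 P := by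
      have : m1 d * (93 / 100 * m1 Q) ≤ m1 d * m1 P := by linarith
      have := le_of_mul_le_mul_left this (by linarith)
      linarith
    have h11 : Real.log (m1 Q) ≤ Real.log (100 / 93) + Real.log (m1 P) := by
      rw [← Real.log_mul (by norm_num) (by linarith)]
      exact Real.log_le_log (by linarith) h10
    linarith

/-- the measures of the polynomials with a long shift -/
def TLS (κ : ℝ → ℝ) : Set ℝ := {x : ℝ | ∃ (A B : ℤ[X]) (N g : ℕ) (H : ℝ),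
  A ≠ 0 ∧ 1 ≤ g ∧ 1 ≤ H ∧ H ≤ κ x ∧ B.natDegree + g ≤ N + A.natDegree ∧
  (∀ z : ℂ, ‖z‖ = 1 → ‖aeval z B‖ ≤ H * ‖aeval z A‖) ∧
  250 * (Pool.Agent.N772.SC.outer A : ℝ) * (Pool.Agent.N772.SC.outer A + Real.log H) ≤ g ∧
  (∀ z : ℂ, 1 < ‖z‖ → aeval z A ≠ 0 ∨ aeval z B ≠ 0) ∧ x = m1 (X ^ N * A + B)}

theorem BC_TLS {κ : ℝ → ℝ} (hκ : Monotone κ) : BC (TLS κ) := by
  intro B
  set c : ℝ := Real.log (2 + max (κ B) 1) + Real.log (100 / 93) with hc
  set T1 : Set ℝ := {y | ∃ P Q : ℤ[X], P ≠ 0 ∧ Q ≠ 0 ∧ IsRelPrime P Q ∧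
    mx1 P Q ≤ Real.log (m1 P) + c ∧ y = m1 P} with hT1
  set T2 : Set ℝ := {y | ∃ n : ℕ, 1 ≤ n ∧ y = n} with hT2
  have b1 : BC T1 := by
    intro B'
    refine ⟨Real.log (max B' 1) + c, ?_⟩
    rintro y ⟨⟨P, Q, h1, h2, h3, h4, rfl⟩, hy⟩
    refine m1_mem_LL P Q h1 h2 h3 _ (h4.trans ?_)
    have h8 : 0 < m1 P := lt_of_lt_of_le one_pos (one_le_m1 h1)
    have h9 : Real.log (m1 P) ≤ Real.log (max B' 1) :=
      Real.log_le_log h8 (le_max_of_le_left (Set.mem_Iio.mp hy).le)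
    linarith
  have b2 : BC T2 := by
    intro B'
    refine ⟨Real.log (max B' 1), ?_⟩
    rintro y ⟨⟨n, hn, rfl⟩, hy⟩
    refine Pool.Agent.TH845.KN.nat_mem_LL n hn _ ?_
    exact Real.log_le_log (by exact_mod_cast hn) (le_max_of_le_left (Set.mem_Iio.mp hy).le)
  obtain ⟨K, hK⟩ := BC_monoid (b1.union b2) B
  refine ⟨K, ?_⟩
  rintro x ⟨⟨A, B', N, g, H, hA, hg1, hH, hHκ, hdeg, hB, hg, hz, rfl⟩, hx⟩
  refine hK ⟨?_, hx⟩
  obtain ⟨d, P, Q, h1, h2, h3, h4, h5, h6, h7⟩ := companion hA hg1 hH hdeg hB hg hz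
  obtain ⟨n, hn1, hn⟩ := Pool.Agent.N772.BL.m1_nat h2 h6
  have hHB : H ≤ max (κ B) 1 := le_max_of_le_left (hHκ.trans (hκ (Set.mem_Iio.1 hx).le))
  rw [h1, m1_mul, hn]
  refine Submonoid.mul_mem _ (Submonoid.subset_closure (Or.inr ⟨n, hn1, rfl⟩))
    (Submonoid.subset_closure (Or.inl ⟨P, Q, h3, h4, h5, h7.trans ?_, rfl⟩))
  have h10 : Real.log (2 + H) ≤ Real.log (2 + max (κ B) 1) :=
    Real.log_le_log (by linarith) (by linarith)
  rw [hc]
  linarith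

end Pool.Agent.N317.LS
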